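import Mathlib

/-!
# The recurrence `x (n+1) = (α + x (n-1)) / (A + B x n + x (n-1))`: basic facts

Equilibrium, two-cycle, signed differences of two solutions, expansion near the equilibrium, and
the convergence of the even and odd subsequences of all solutions.
-/

set_option autoImplicit false

open Filter Topology Set

namespace Pool.Agent.Q64.TC

/-- The parameters of the problem: `α > 0`, `B > 1`, `0 ≤ A < 1` and condition (H). -/
structure Par (α A B : ℝ) : Prop where
  hα : 0 < α
  hB : 1 < B
  hA : 0 ≤ A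
  hA1 : A < 1
  hH : α < (B - 1) * (1 - A) ^ 2 / 4

/-- `x` is a solution of the recurrence with admissible initial values. The number `x n` is the
term with index `n - 1`, so `(x 0, x 1)` is the pair of initial values. The sum
`A + x 0 + x 1` is positive if and only if `A > 0` or the initial values are not both zero. -/
structure IsSol (α A B : ℝ) (x : ℕ → ℝ) : Prop where
  nn0 : 0 ≤ x 0
  nn1 : 0 ≤ x 1
  adm : 0 < A + x 0 + x 1
  step : ∀ n, x (n + 2) = (α + x n) / (A + B * x (n + 1) + x n)

/-- The equilibrium. -/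
noncomputable def eqp (α A B : ℝ) : ℝ :=
  (1 - A + √((1 - A) ^ 2 + 4 * α * (1 + B))) / (2 * (1 + B))

/-- The smaller number of the two-cycle. -/
noncomputable def lo (α A B : ℝ) : ℝ := (1 - A - √((1 - A) ^ 2 - 4 * α / (B - 1))) / 2

/-- The larger number of the two-cycle. -/
noncomputable def hi (α A B : ℝ) : ℝ := (1 - A + √((1 - A) ^ 2 - 4 * α / (B - 1))) / 2

variable {α A B : ℝ}

theorem eqp_pos (h : Par α A B) : 0 < eqp α A B := by
  have h1 := h.hB
  have h2 := h.hA1
  unfold eqp
  have h3 : 0 ≤ √((1 - A) ^ 2 + 4 * α * (1 + B)) := Real.sqrt_nonneg _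
  apply div_pos
  · linarith
  · linarith

theorem eqp_quad (h : Par α A B) :
    (1 + B) * eqp α A B ^ 2 - (1 - A) * eqp α A B - α = 0 := by
  have h1 := h.hB
  have h2 := h.hα
  have h0 : 0 ≤ (1 - A) ^ 2 + 4 * α * (1 + B) := by positivity
  have h3 := Real.sq_sqrt h0
  have h4 : (1 + B) ≠ 0 := by linarith
  have h5 : eqp α A B * (2 * (1 + B)) = 1 - A + √((1 - A) ^ 2 + 4 * α * (1 + B)) := by
    unfold eqp
    field_simp
  have h6 : 4 * (1 + B) * ((1 + B) * eqp α A B ^ 2 - (1 - A) * eqp α A B - α) = 0 := by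
    have h7 : √((1 - A) ^ 2 + 4 * α * (1 + B)) = eqp α A B * (2 * (1 + B)) - (1 - A) := by
      linarith
    rw [h7] at h3
    linarith
  rcases mul_eq_zero.1 h6 with h7 | h7
  · exfalso
    apply h4
    linarith
  · exact h7

theorem eqp_fix (h : Par α A B) :
    eqp α A B * (A + B * eqp α A B + eqp α A B) = α + eqp α A B := by
  have := eqp_quad h
  linarith

theorem eqp_lt (h : Par α A B) : 2 * eqp α A B < 1 - A := by
  have h1 := h.hB
  have h2 := h.hA1
  have h3 := h.hH
  have h4 := eqp_quad h
  have h5 := eqp_pos h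
  set e := eqp α A B
  by_contra hc
  push Not at hc
  have h6 : (1 + B) * e ^ 2 - (1 - A) * e ≥ (1 + B) * ((1 - A) / 2) ^ 2 - (1 - A) * ((1 - A) / 2) := by
    have h7 : (1 + B) * e ^ 2 - (1 - A) * e - ((1 + B) * ((1 - A) / 2) ^ 2 -
        (1 - A) * ((1 - A) / 2)) = (e - (1 - A) / 2) * ((1 + B) * (e + (1 - A) / 2) - (1 - A)) := by
      ring
    have h8 : 0 ≤ (e - (1 - A) / 2) * ((1 + B) * (e + (1 - A) / 2) - (1 - A)) := by
      apply mul_nonneg
      · linarith
      · nlinarith
    linarith
  nlinarith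

theorem eqp_lt_one (h : Par α A B) : eqp α A B < 1 := by
  have := eqp_lt h
  have := eqp_pos h
  have := h.hA
  linarith

/-- `f(u, v)` is strictly increasing in `v` for `u` equal to the equilibrium. -/
theorem eqp_good (h : Par α A B) : α < A + B * eqp α A B := by
  have h1 := eqp_fix h
  have h2 := eqp_lt_one h
  have h3 := eqp_pos h
  have h4 := h.hB
  have h5 := h.hA
  set e := eqp α A B
  have h6 : A + B * e - α = (1 - e) * (A + B * e + e) := by
    linarith
  have h7 : 0 < (1 - e) * (A + B * e + e) := by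
    apply mul_pos
    · linarith
    · positivity
  linarith

/-- uniqueness of the equilibrium -/
theorem eqp_unique (h : Par α A B) {p : ℝ} (hp : 0 ≤ p) (h1 : p * (A + B * p + p) = α + p) :
    p = eqp α A B := by
  have h2 := eqp_quad h
  have h3 := eqp_pos h
  have h4 := h.hB
  have h5 := h.hα
  set e := eqp α A B
  have h6 : (p - e) * ((1 + B) * (p + e) - (1 - A)) = 0 := by linarith
  rcases mul_eq_zero.1 h6 with h7 | h7
  · linarith
  · exfalso
    have h8 : (1 + B) * e ^ 2 - (1 - A) * e = -((1 + B) * p * e) := by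
      have : (1 - A) = (1 + B) * (p + e) := by linarith
      rw [this]
      ring
    have h9 : 0 ≤ (1 + B) * p * e := by positivity
    linarith

theorem disc_pos (h : Par α A B) : 0 < (1 - A) ^ 2 - 4 * α / (B - 1) := by
  have h1 := h.hB
  have h3 := h.hH
  have h4 : 0 < B - 1 := by linarith
  rw [sub_pos, div_lt_iff₀ h4]
  linarith

theorem lo_lt_hi (h : Par α A B) : lo α A B < hi α A B := by
  have h1 := Real.sqrt_pos.2 (disc_pos h)
  unfold lo hi
  linarith

theorem lo_add_hi : lo α A B + hi α A B = 1 - A := by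
  unfold lo hi
  ring

theorem lo_mul_hi (h : Par α A B) : lo α A B * hi α A B = α / (B - 1) := by
  have h1 := Real.sq_sqrt (disc_pos h).le
  have h2 : lo α A B * hi α A B = ((1 - A) ^ 2 - √((1 - A) ^ 2 - 4 * α / (B - 1)) ^ 2) / 4 := by
    unfold lo hi
    ring
  rw [h2, h1]
  ring

theorem lo_lt_eqp (h : Par α A B) : lo α A B < eqp α A B ∧ eqp α A B < hi α A B := by
  have h1 := eqp_lt h
  have h2 := lo_add_hi (α := α) (A := A) (B := B)
  have h3 := lo_mul_hi h
  have h4 := eqp_pos h
  have h5 := eqp_quad h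
  have h6 := h.hB
  have h7 := lo_lt_hi h
  set e := eqp α A B
  have h8 : 0 < B - 1 := by linarith
  have h9 : (e - lo α A B) * (e - hi α A B) < 0 := by
    have h10 : (e - lo α A B) * (e - hi α A B) = e ^ 2 - (1 - A) * e + α / (B - 1) := by
      rw [← h2, ← h3]
      ring
    rw [h10]
    have h11 : e ^ 2 - (1 - A) * e + α / (B - 1) =
        (B * e * (2 * e - (1 - A))) / (B - 1) := by
      field_simp
      linarith
    rw [h11]
    apply div_neg_of_neg_of_pos _ h8
    have : 0 < B * e := by positivity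
    nlinarith
  constructor
  · by_contra hc
    push Not at hc
    have : 0 ≤ (e - lo α A B) * (e - hi α A B) := by
      apply mul_nonneg_of_nonpos_of_nonpos <;> linarith
    linarith
  · by_contra hc
    push Not at hc
    have : 0 ≤ (e - lo α A B) * (e - hi α A B) := by
      apply mul_nonneg <;> linarith
    linarith

namespace IsSol

variable {x y : ℕ → ℝ}

theorem nn (h : Par α A B) (hx : IsSol α A B x) : ∀ n, 0 ≤ x n ∧ 0 ≤ x (n + 1) ∧
    0 < A + B * x (n + 1) + x n := by
  have h1 := h.hB
  have h2 := h.hα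
  have h3 := h.hA
  intro n
  induction n with
  | zero =>
    refine ⟨hx.nn0, hx.nn1, ?_⟩
    have := hx.adm
    have := hx.nn0
    have h4 := hx.nn1
    simp only [zero_add]
    nlinarith
  | succ n ih =>
    obtain ⟨i1, i2, i3⟩ := ih
    have h4 : 0 < x (n + 2) := by
      rw [hx.step n]
      apply div_pos _ i3
      linarith
    refine ⟨i2, h4.le, ?_⟩
    have : 0 < B * x (n + 1 + 1) := by
      have : 0 < x (n + 1 + 1) := h4
      positivity
    linarith

theorem nonneg (h : Par α A B) (hx : IsSol α A B x) (n : ℕ) : 0 ≤ x n := (hx.nn h n).1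

theorem den (h : Par α A B) (hx : IsSol α A B x) (n : ℕ) : 0 < A + B * x (n + 1) + x n :=
  (hx.nn h n).2.2

theorem pos (h : Par α A B) (hx : IsSol α A B x) (n : ℕ) : 0 < x (n + 2) := by
  rw [hx.step n]
  apply div_pos _ (hx.den h n)
  linarith [hx.nonneg h n, h.hα]

theorem shift (h : Par α A B) (hx : IsSol α A B x) (k : ℕ) :
    IsSol α A B fun n => x (n + k) := by
  have h1 := h.hB
  refine ⟨?_, ?_, ?_, fun n => ?_⟩
  · exact hx.nonneg h _
  · exact hx.nonneg h _
  · have h2 := hx.den h k
    have h3 := hx.nonneg h (k + 1)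
    have h4 := hx.nonneg h k
    have h5 := h.hA
    simp only [zero_add]
    rw [add_comm 1 k]
    by_contra hc
    push Not at hc
    have h6 : x (k + 1) = 0 := by linarith
    rw [h6] at h2
    linarith
  · have := hx.step (n + k)
    rw [show n + 2 + k = n + k + 2 by ring, show n + 1 + k = n + k + 1 by ring]
    exact this

/-- the constant solution -/
theorem const (h : Par α A B) : IsSol α A B fun _ => eqp α A B := by
  have h1 := eqp_pos h
  have h2 := eqp_fix h
  have h3 := h.hA
  have h4 := h.hB
  refine ⟨h1.le, h1.le, by linarith, fun n => ?_⟩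
  have h5 : 0 < A + B * eqp α A B + eqp α A B := by positivity
  rw [eq_div_iff h5.ne']
  exact h2

end IsSol

/-- the signed difference of two sequences -/
noncomputable def dif (x y : ℕ → ℝ) (n : ℕ) : ℝ := (-1) ^ n * (y n - x n)

/-- the coefficients in the recurrence of the signed differences -/
noncomputable def ca (α A B : ℝ) (x y : ℕ → ℝ) (n : ℕ) : ℝ :=
  B * (α + x n) / ((A + B * x (n + 1) + x n) * (A + B * y (n + 1) + y n))

/-- the coefficients in the recurrence of the signed differences -/
noncomputable def cb (α A B : ℝ) (x y : ℕ → ℝ) (n : ℕ) : ℝ :=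
  (A + B * x (n + 1) - α) / ((A + B * x (n + 1) + x n) * (A + B * y (n + 1) + y n))

section

variable {x y : ℕ → ℝ}

theorem dif_step (h : Par α A B) (hx : IsSol α A B x) (hy : IsSol α A B y) (n : ℕ) :
    dif x y (n + 2) = cb α A B x y n * dif x y n + ca α A B x y n * dif x y (n + 1) := by
  have h1 := hx.den h n
  have h2 := hy.den h n
  unfold dif ca cb
  rw [hx.step n, hy.step n]
  have h3 := h1.ne'
  have h4 := h2.ne'
  field_simp
  ring

theorem ca_pos (h : Par α A B) (hx : IsSol α A B x) (hy : IsSol α A B y) (n : ℕ) :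
    0 < ca α A B x y n := by
  have h1 := hx.den h n
  have h2 := hy.den h n
  have h3 := h.hB
  have h4 := h.hα
  have h5 := hx.nonneg h n
  unfold ca
  positivity

theorem cb_pos (h : Par α A B) (hx : IsSol α A B x) (hy : IsSol α A B y) (n : ℕ)
    (hg : α < A + B * x (n + 1)) : 0 < cb α A B x y n := by
  have h1 := hx.den h n
  have h2 := hy.den h n
  unfold cb
  apply div_pos
  · linarith
  · positivity

/-- The order of two solutions persists. -/
theorem dif_nonneg (h : Par α A B) (hx : IsSol α A B x) (hy : IsSol α A B y)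
    (hg : ∀ n, α < A + B * x (n + 1)) (h0 : 0 ≤ dif x y 0) (h1 : 0 ≤ dif x y 1) (n : ℕ) :
    0 ≤ dif x y n ∧ 0 ≤ dif x y (n + 1) := by
  induction n with
  | zero => exact ⟨h0, h1⟩
  | succ n ih =>
    refine ⟨ih.2, ?_⟩
    rw [show n + 1 + 1 = n + 2 by ring, dif_step h hx hy]
    have h2 := ca_pos h hx hy n
    have h3 := cb_pos h hx hy n (hg n)
    have := mul_nonneg h3.le ih.1
    have := mul_nonneg h2.le ih.2
    linarith

theorem dif_pos (h : Par α A B) (hx : IsSol α A B x) (hy : IsSol α A B y)
    (hg : ∀ n, α < A + B * x (n + 1)) (h0 : 0 ≤ dif x y 0) (h1 : 0 ≤ dif x y 1)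
    (h2 : 0 < dif x y 0 ∨ 0 < dif x y 1) (n : ℕ) :
    0 < dif x y (n + 2) := by
  have key : ∀ n, 0 < dif x y n ∨ 0 < dif x y (n + 1) → 0 < dif x y (n + 2) := by
    intro n hn
    have h4 := dif_nonneg h hx hy hg h0 h1 n
    rw [dif_step h hx hy]
    have h2 := ca_pos h hx hy n
    have h3 := cb_pos h hx hy n (hg n)
    rcases hn with hn | hn
    · have := mul_pos h3 hn
      have := mul_nonneg h2.le h4.2
      linarith
    · have := mul_nonneg h3.le h4.1
      have := mul_pos h2 hn
      linarith
  induction n with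
  | zero => exact key 0 h2
  | succ n ih => exact key (n + 1) (Or.inr ih)

theorem dif_swap_sign (x y : ℕ → ℝ) (n : ℕ) :
    dif (fun k => x (k + 1)) (fun k => y (k + 1)) n = - dif x y (n + 1) := by
  unfold dif
  ring

end

end Pool.Agent.Q64.TC
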