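import Pool.Agent.Q64.TC.Base

set_option autoImplicit false

open Filter Topology Set

namespace Pool.Agent.Q64.TC

variable {α A B : ℝ} {x y : ℕ → ℝ}

/-- Two different ordered solutions do not both converge to the equilibrium. -/
theorem not_both (h : Par α A B) (hx : IsSol α A B x) (hy : IsSol α A B y)
    (hg : ∀ n, α < A + B * x (n + 1)) (h0 : 0 ≤ dif x y 0) (h1 : 0 ≤ dif x y 1)
    (h2 : 0 < dif x y 0 ∨ 0 < dif x y 1) (tx : Tendsto x atTop (𝓝 (eqp α A B)))
    (ty : Tendsto y atTop (𝓝 (eqp α A B))) : False := by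
  have e1 := eqp_pos h
  have e2 := eqp_fix h
  have e3 := eqp_lt h
  have hB := h.hB
  have hA := h.hA
  set e := eqp α A B with he
  set D := A + B * e + e with hD
  have hDpos : 0 < D := by positivity
  have tx1 := tx.comp (tendsto_add_atTop_nat 1)
  have ty1 := ty.comp (tendsto_add_atTop_nat 1)
  have t1 : Tendsto (fun n => ca α A B x y n + cb α A B x y n) atTop
      (𝓝 (B * (α + e) / (D * D) + (A + B * e - α) / (D * D))) := by
    have t2 : Tendsto (fun n => (A + B * x (n + 1) + x n) * (A + B * y (n + 1) + y n)) atTop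
        (𝓝 (D * D)) :=
      ((tendsto_const_nhds.add (tx1.const_mul B)).add tx).mul
        ((tendsto_const_nhds.add (ty1.const_mul B)).add ty)
    have t3 : Tendsto (fun n => B * (α + x n)) atTop (𝓝 (B * (α + e))) :=
      (tendsto_const_nhds.add tx).const_mul B
    have t4 : Tendsto (fun n => A + B * x (n + 1) - α) atTop (𝓝 (A + B * e - α)) :=
      (tendsto_const_nhds.add (tx1.const_mul B)).sub_const α
    have hne : D * D ≠ 0 := by positivity
    exact (t3.div t2 hne).add (t4.div t2 hne)
  have hlim : 1 < B * (α + e) / (D * D) + (A + B * e - α) / (D * D) := by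
    rw [← add_div, one_lt_div (by positivity)]
    have h3 : B * (α + e) + (A + B * e - α) = D * (1 + (B - 1) * e) := by
      rw [← e2]
      have h4 : α = e * D - e := by linarith
      have h5 : A + B * e = D - e := by linarith
      rw [h5]
      nlinarith
    rw [h3]
    have h6 : D < 1 + (B - 1) * e := by
      rw [hD]
      linarith
    exact mul_lt_mul_of_pos_left h6 hDpos
  obtain ⟨N, hN⟩ := (t1.eventually (lt_mem_nhds hlim)).exists_forall_of_atTop
  have hpos := dif_pos h hx hy hg h0 h1 h2
  set c := min (dif x y (N + 2)) (dif x y (N + 3)) with hc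
  have hcpos : 0 < c := lt_min (hpos N) (hpos (N + 1))
  have key : ∀ k, c ≤ dif x y (N + 2 + k) ∧ c ≤ dif x y (N + 2 + (k + 1)) := by
    intro k
    induction k with
    | zero => exact ⟨min_le_left _ _, min_le_right _ _⟩
    | succ k ih =>
      refine ⟨ih.2, ?_⟩
      have h4 := hN (N + 2 + k) (by omega)
      have h5 := dif_step h hx hy (N + 2 + k)
      have h6 := ca_pos h hx hy (N + 2 + k)
      have h7 := cb_pos h hx hy (N + 2 + k) (hg _)
      rw [show N + 2 + (k + 1 + 1) = N + 2 + k + 2 by ring, h5]
      have h8 := mul_le_mul_of_nonneg_left ih.1 h7.le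
      have h9 := mul_le_mul_of_nonneg_left ih.2 h6.le
      rw [show N + 2 + (k + 1) = N + 2 + k + 1 by ring] at h9
      have h10 : c ≤ (ca α A B x y (N + 2 + k) + cb α A B x y (N + 2 + k)) * c :=
        le_mul_of_one_le_left hcpos.le h4.le
      linarith
  have t5 : Tendsto (fun k => y (N + 2 + k) - x (N + 2 + k)) atTop (𝓝 (e - e)) := by
    have t6 := (ty.sub tx).comp (tendsto_add_atTop_nat (N + 2))
    refine t6.congr fun k => ?_
    simp [add_comm]
  rw [sub_self] at t5
  have t7 := (tendsto_order.1 t5.abs).2 c (by simpa using hcpos)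
  obtain ⟨k, hk⟩ := t7.exists
  have h11 := (key k).1
  have h12 : dif x y (N + 2 + k) ≤ |y (N + 2 + k) - x (N + 2 + k)| := by
    unfold dif
    refine (le_abs_self _).trans ?_
    rw [abs_mul, abs_pow, abs_neg, abs_one, one_pow, one_mul]
  linarith

/-- A term `x n` with `A + B * x n ≤ α` is followed by a term that is at least one. -/
theorem one_le_of_bad (h : Par α A B) (hx : IsSol α A B x) (n : ℕ)
    (hb : A + B * x (n + 1) ≤ α) : 1 ≤ x (n + 2) := by
  rw [hx.step n, one_le_div (hx.den h n)]
  linarith

theorem lt_one_of_good (h : Par α A B) (hx : IsSol α A B x) (n : ℕ)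
    (hb : α < A + B * x (n + 1)) : x (n + 2) < 1 := by
  rw [hx.step n, div_lt_one (hx.den h n)]
  linarith

theorem lt_eqp_of_bad (h : Par α A B) {t : ℝ} (hb : A + B * t ≤ α) : t < eqp α A B := by
  have h1 := eqp_good h
  have h2 := h.hB
  by_contra hc
  push Not at hc
  have : B * eqp α A B ≤ B * t := mul_le_mul_of_nonneg_left hc (by linarith)
  linarith

/-- The quadrant `x n < e < x (n+1)` persists. -/
theorem quad_lt (h : Par α A B) (hx : IsSol α A B x) (h0 : x 0 ≤ eqp α A B)
    (h1 : eqp α A B ≤ x 1) (h2 : x 0 < eqp α A B ∨ eqp α A B < x 1) (n : ℕ) :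
    x (2 * n + 2) < eqp α A B ∧ eqp α A B < x (2 * n + 3) := by
  have hc := IsSol.const h
  have hg : ∀ n : ℕ, α < A + B * (fun _ : ℕ => eqp α A B) (n + 1) := fun _ => eqp_good h
  have hcc : IsSol α A B (fun n => (fun _ : ℕ => eqp α A B) (n + 0)) := hc.shift h 0
  -- use the differences with the roles such that the sign is positive
  have key : ∀ n, dif (fun _ => eqp α A B) x (n + 2) < 0 := by
    have step : ∀ n, dif (fun _ => eqp α A B) x n ≤ 0 ∧ dif (fun _ => eqp α A B) x (n + 1) ≤ 0 ∧
        (dif (fun _ => eqp α A B) x n < 0 ∨ dif (fun _ => eqp α A B) x (n + 1) < 0) := by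
      intro n
      induction n with
      | zero =>
        unfold dif
        refine ⟨by simpa using h0, by simpa using h1, ?_⟩
        rcases h2 with h2 | h2
        · left; simpa using h2
        · right; simpa using h2
      | succ n ih =>
        obtain ⟨i1, i2, i3⟩ := ih
        have h3 := dif_step h hc hx n
        have h4 := ca_pos h hc hx n
        have h5 := cb_pos h hc hx n (hg n)
        have h6 : dif (fun _ => eqp α A B) x (n + 2) < 0 := by
          rw [h3]
          rcases i3 with i3 | i3
          · have := mul_neg_of_pos_of_neg h5 i3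
            have := mul_nonpos_of_nonneg_of_nonpos h4.le i2
            linarith
          · have := mul_neg_of_pos_of_neg h4 i3
            have := mul_nonpos_of_nonneg_of_nonpos h5.le i1
            linarith
        exact ⟨i2, h6.le, Or.inr h6⟩
    intro n
    have h3 := dif_step h hc hx n
    have h4 := ca_pos h hc hx n
    have h5 := cb_pos h hc hx n (hg n)
    obtain ⟨i1, i2, i3⟩ := step n
    rw [h3]
    rcases i3 with i3 | i3
    · have := mul_neg_of_pos_of_neg h5 i3
      have := mul_nonpos_of_nonneg_of_nonpos h4.le i2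
      linarith
    · have := mul_neg_of_pos_of_neg h4 i3
      have := mul_nonpos_of_nonneg_of_nonpos h5.le i1
      linarith
  constructor
  · have := key (2 * n)
    unfold dif at this
    rw [show (-1 : ℝ) ^ (2 * n + 2) = 1 by
      rw [show 2 * n + 2 = 2 * (n + 1) by ring, pow_mul]; norm_num] at this
    linarith
  · have := key (2 * n + 1)
    unfold dif at this
    rw [show (-1 : ℝ) ^ (2 * n + 1 + 2) = -1 by
      rw [show 2 * n + 1 + 2 = 2 * (n + 1) + 1 by ring, pow_succ, pow_mul]; norm_num] at this
    rw [show 2 * n + 1 + 2 = 2 * n + 3 by ring] at this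
    linarith

end Pool.Agent.Q64.TC
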