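import Pool.Agent.Q64.TC.Sep

set_option autoImplicit false

open Filter Topology Set

namespace Pool.Agent.Q64.TC

variable {α A B : ℝ} {x y : ℕ → ℝ}

/-- The solution with initial values `a` (index `-1`) and `b` (index `0`); the number
`sol α A B a b n` is the term with index `n - 1`. -/
noncomputable def sol (α A B a b : ℝ) : ℕ → ℝ
  | 0 => a
  | 1 => b
  | n + 2 => (α + sol α A B a b n) / (A + B * sol α A B a b (n + 1) + sol α A B a b n)

theorem isSol_sol {a b : ℝ} (ha : 0 ≤ a) (hb : 0 ≤ b) (hab : 0 < A + a + b) :
    IsSol α A B (sol α A B a b) :=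
  ⟨ha, hb, hab, fun _ => rfl⟩

theorem eq_sol (hx : IsSol α A B x) : x = sol α A B (x 0) (x 1) := by
  funext n
  have key : ∀ n, x n = sol α A B (x 0) (x 1) n ∧ x (n + 1) = sol α A B (x 0) (x 1) (n + 1) := by
    intro n
    induction n with
    | zero => exact ⟨rfl, rfl⟩
    | succ n ih =>
      refine ⟨ih.2, ?_⟩
      rw [show n + 1 + 1 = n + 2 by ring, hx.step n, ih.1, ih.2]
      rfl
  exact (key n).1

/-- the domain of admissible initial values -/
def Dom (A : ℝ) : Set (ℝ × ℝ) := {p | 0 ≤ p.1 ∧ 0 ≤ p.2 ∧ 0 < A + p.1 + p.2}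

theorem continuousOn_sol (h : Par α A B) (n : ℕ) :
    ContinuousOn (fun p : ℝ × ℝ => sol α A B p.1 p.2 n) (Dom A) := by
  have key : ∀ n, ContinuousOn (fun p : ℝ × ℝ => sol α A B p.1 p.2 n) (Dom A) ∧
      ContinuousOn (fun p : ℝ × ℝ => sol α A B p.1 p.2 (n + 1)) (Dom A) := by
    intro n
    induction n with
    | zero => exact ⟨continuous_fst.continuousOn, continuous_snd.continuousOn⟩
    | succ n ih =>
      refine ⟨ih.2, ?_⟩
      have : (fun p : ℝ × ℝ => sol α A B p.1 p.2 (n + 1 + 1)) = fun p =>
          (α + sol α A B p.1 p.2 n) /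
            (A + B * sol α A B p.1 p.2 (n + 1) + sol α A B p.1 p.2 n) := rfl
      rw [this]
      refine (continuousOn_const.add ih.1).div
        ((continuousOn_const.add (continuousOn_const.mul ih.2)).add ih.1) ?_
      rintro ⟨a, b⟩ ⟨ha, hb, hab⟩
      exact ((isSol_sol ha hb hab).den h n).ne'
  exact (key n).1

theorem exists_lower (h : Par α A B) {a : ℝ} (ha : 0 ≤ a) :
    ∃ b, 0 ≤ b ∧ 0 < A + a + b ∧ HiLo α A B (sol α A B a b) := by
  have hα := h.hα
  have hB := h.hB
  have hA := h.hA
  -- if the second initial value is in the bad region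
  have bad : ∀ b, 0 ≤ b → 0 < A + a + b → A + B * b ≤ α → HiLo α A B (sol α A B a b) := by
    intro b hb hab hbad
    have hs := isSol_sol (α := α) (B := B) ha hb hab
    rw [← loHi_shift_iff]
    have h1 : sol α A B a b 1 < eqp α A B := lt_eqp_of_bad h hbad
    have h2 : eqp α A B < sol α A B a b 2 :=
      (eqp_lt_one h).trans_le (one_le_of_bad h hs 0 hbad)
    exact loHi_of_quad h (hs.shift h 1) h1.le h2.le (Or.inl h1)
  by_cases h0 : 0 < A + a
  · by_cases h1 : A < α
    · refine ⟨0, le_rfl, by simpa using h0, bad 0 le_rfl (by simpa using h0) ?_⟩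
      simpa using h1.le
    · rcases (not_lt.1 h1).lt_or_eq with h1 | h1
      · refine ⟨0, le_rfl, by simpa using h0, ?_⟩
        have hs := isSol_sol (α := α) (B := B) ha le_rfl (show 0 < A + a + 0 by simpa using h0)
        set z := sol α A B a 0 with hz
        have hg : ∀ n, α < A + B * z (n + 1) := by
          intro n
          have := hs.nonneg h (n + 1)
          have : 0 ≤ B * z (n + 1) := by positivity
          linarith
        have z1 : z 1 = 0 := rfl
        have z2 : 0 < z 2 := hs.pos h 0
        have hs1 := hs.shift h 1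
        have d0 : dif z (fun n => z (n + 1)) 0 ≤ 0 := by
          unfold dif
          simp only [pow_zero, one_mul, zero_add]
          rw [z1]
          have : z 0 = a := rfl
          linarith
        have d1 : dif z (fun n => z (n + 1)) 1 < 0 := by
          unfold dif
          simp only [pow_one]
          rw [z1]
          have : z (1 + 1) = z 2 := rfl
          linarith
        have hall := fun n => dif_nonpos_from h hs hs1 hg 0 d0 d1.le n (Nat.zero_le n)
        rcases trichotomy h hs with ht | ht | ht
        · exact (not_both' h hs hs1 hg d0 d1.le (Or.inr d1) ht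
            (ht.comp (tendsto_add_atTop_nat 1))).elim
        · exfalso
          have h3 : ∀ k, z (2 * k + 1) ≤ z (2 * k) := by
            intro k
            have := hall (2 * k)
            rw [dif_even] at this
            linarith
          have := le_of_tendsto_of_tendsto' ht.2 ht.1 h3
          have := lo_lt_hi h
          linarith
        · exact ht
      · refine ⟨0, le_rfl, by simpa using h0, bad 0 le_rfl (by simpa using h0) ?_⟩
        simp [h1]
  · have hA0 : A = 0 := by linarith
    have ha0 : a = 0 := by linarith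
    refine ⟨α / B, by positivity, ?_, bad (α / B) (by positivity) ?_ ?_⟩
    · rw [hA0, ha0]
      have : 0 < α / B := by positivity
      linarith
    · rw [hA0, ha0]
      have : 0 < α / B := by positivity
      linarith
    · rw [hA0, mul_div_cancel₀ _ (by linarith : B ≠ 0)]
      linarith

theorem exists_upper (h : Par α A B) {a : ℝ} (ha : 0 ≤ a) :
    ∃ b, 0 ≤ b ∧ 0 < A + a + b ∧ LoHi α A B (sol α A B a b) := by
  have hα := h.hα
  have hB := h.hB
  have hA := h.hA
  have he := eqp_pos h
  set e := eqp α A B with hedef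
  have hbpos : 0 < (α + a) / (B * e) := by positivity
  refine ⟨(α + a) / (B * e) + e, by positivity, by positivity, ?_⟩
  set b := (α + a) / (B * e) + e with hb
  have hb0 : 0 ≤ b := by positivity
  have hs := isSol_sol (α := α) (B := B) (A := A) ha hb0 (by positivity : 0 < A + a + b)
  rw [← hiLo_shift_iff]
  have h1 : e < sol α A B a b 1 := by
    change e < b
    linarith
  have h2 : sol α A B a b 2 < e := by
    have h3 := hs.step 0
    have h4 := hs.den h 0
    simp only [zero_add] at h3 h4
    rw [h3, div_lt_iff₀ h4]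
    change α + a < e * (A + B * b + a)
    have h5 : e * (B * b) = α + a + e * B * e := by
      rw [hb]
      field_simp
    have : 0 < e * B * e := by positivity
    have : 0 ≤ e * A := by positivity
    have : 0 ≤ e * a := by positivity
    nlinarith
  exact hiLo_of_quad h (hs.shift h 1) h1.le h2.le (Or.inl h1)

/-- the vertical sections of the domain -/
def Sec (A a : ℝ) : Set ℝ := {b | 0 ≤ b ∧ 0 < A + a + b}

theorem convex_sec (A a : ℝ) : Convex ℝ (Sec A a) := by
  have : Sec A a = Ici 0 ∩ Ioi (-(A + a)) := by
    ext b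
    simp only [Sec, mem_ofPred_eq, mem_inter_iff, mem_Ici, mem_Ioi]
    constructor
    · rintro ⟨h1, h2⟩; exact ⟨h1, by linarith⟩
    · rintro ⟨h1, h2⟩; exact ⟨h1, by linarith⟩
  rw [this]
  exact (convex_Ici 0).inter (convex_Ioi _)

theorem exists_W (h : Par α A B) {a : ℝ} (ha : 0 ≤ a) :
    ∃ b, 0 ≤ b ∧ 0 < A + a + b ∧ Tendsto (sol α A B a b) atTop (𝓝 (eqp α A B)) := by
  by_contra hc
  push Not at hc
  have hpre : PreconnectedSpace (Sec A a) :=
    isPreconnected_iff_preconnectedSpace.1 (convex_sec A a).isPreconnected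
  have hcont : ∀ n, Continuous fun b : Sec A a => sol α A B a b n := by
    intro n
    have h1 : ContinuousOn (fun b : ℝ => sol α A B a b n) (Sec A a) := by
      have h2 := continuousOn_sol h n
      exact h2.comp (f := fun b : ℝ => (a, b)) (by fun_prop)
        (fun b hb => ⟨ha, hb.1, hb.2⟩)
    exact continuousOn_iff_continuous_domRestrict.1 h1
  set U : Set (Sec A a) := {b | LoHi α A B (sol α A B a b)} with hU
  set L : Set (Sec A a) := {b | HiLo α A B (sol α A B a b)} with hL
  have hsol : ∀ b : Sec A a, IsSol α A B (sol α A B a b) := fun b =>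
    isSol_sol ha b.2.1 b.2.2
  have hUo : IsOpen U := by
    have : U = ⋃ k : ℕ, {b : Sec A a | sol α A B a b (2 * k) < eqp α A B ∧
        eqp α A B < sol α A B a b (2 * k + 1)} := by
      ext b
      simp only [hU, mem_ofPred_eq, mem_iUnion]
      exact loHi_iff h (hsol b)
    rw [this]
    exact isOpen_iUnion fun k => (isOpen_lt (hcont _) continuous_const).inter
      (isOpen_lt continuous_const (hcont _))
  have hLo : IsOpen L := by
    have : L = ⋃ k : ℕ, {b : Sec A a | eqp α A B < sol α A B a b (2 * k) ∧
        sol α A B a b (2 * k + 1) < eqp α A B} := by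
      ext b
      simp only [hL, mem_ofPred_eq, mem_iUnion]
      exact hiLo_iff h (hsol b)
    rw [this]
    exact isOpen_iUnion fun k => (isOpen_lt continuous_const (hcont _)).inter
      (isOpen_lt (hcont _) continuous_const)
  have hcompl : Uᶜ = L := by
    ext b
    simp only [hU, hL, mem_compl_iff, mem_ofPred_eq]
    constructor
    · intro hb
      rcases trichotomy h (hsol b) with ht | ht | ht
      · exact (hc b b.2.1 b.2.2 ht).elim
      · exact (hb ht).elim
      · exact ht
    · intro hb hb2
      exact not_loHi_of_hiLo h hb hb2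
  have hclopen : IsClopen U := ⟨by rw [← isOpen_compl_iff, hcompl]; exact hLo, hUo⟩
  obtain ⟨b1, c1, c2, c3⟩ := exists_lower h ha
  obtain ⟨b2, c4, c5, c6⟩ := exists_upper h ha
  rcases isClopen_iff.1 hclopen with h1 | h1
  · have : (⟨b2, c4, c5⟩ : Sec A a) ∈ U := c6
    rw [h1] at this
    exact this
  · have h2 : (⟨b1, c1, c2⟩ : Sec A a) ∈ L := c3
    rw [← hcompl, h1] at h2
    simp at h2

/-- the curve -/
noncomputable def cur (α A B a : ℝ) : ℝ :=
  open scoped Classical in
  if h : Par α A B ∧ 0 ≤ a then (exists_W h.1 h.2).choose else 0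

theorem cur_spec (h : Par α A B) {a : ℝ} (ha : 0 ≤ a) :
    0 ≤ cur α A B a ∧ 0 < A + a + cur α A B a ∧
      Tendsto (sol α A B a (cur α A B a)) atTop (𝓝 (eqp α A B)) := by
  have h1 : cur α A B a = (exists_W h ha).choose := by
    unfold cur
    rw [_root_.dif_pos ⟨h, ha⟩]
  rw [h1]
  exact (exists_W h ha).choose_spec

theorem cur_isSol (h : Par α A B) {a : ℝ} (ha : 0 ≤ a) :
    IsSol α A B (sol α A B a (cur α A B a)) :=
  isSol_sol ha (cur_spec h ha).1 (cur_spec h ha).2.1

theorem loHi_of_cur_lt (h : Par α A B) (hx : IsSol α A B x) (hc : cur α A B (x 0) < x 1) :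
    LoHi α A B x :=
  loHi_of_W h (cur_isSol h hx.nn0) hx (cur_spec h hx.nn0).2.2 le_rfl hc.le (Or.inr hc)

theorem hiLo_of_lt_cur (h : Par α A B) (hx : IsSol α A B x) (hc : x 1 < cur α A B (x 0)) :
    HiLo α A B x :=
  hiLo_of_W h (cur_isSol h hx.nn0) hx (cur_spec h hx.nn0).2.2 le_rfl hc.le (Or.inr hc)

theorem tendsto_iff_cur (h : Par α A B) (hx : IsSol α A B x) :
    Tendsto x atTop (𝓝 (eqp α A B)) ↔ x 1 = cur α A B (x 0) := by
  constructor
  · intro ht
    rcases lt_trichotomy (x 1) (cur α A B (x 0)) with hc | hc | hc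
    · exact (not_tendsto_of_hiLo h (hiLo_of_lt_cur h hx hc) ht).elim
    · exact hc
    · exact (not_tendsto_of_loHi h (loHi_of_cur_lt h hx hc) ht).elim
  · intro hc
    rw [eq_sol hx, hc]
    exact (cur_spec h hx.nn0).2.2

theorem loHi_iff_cur (h : Par α A B) (hx : IsSol α A B x) :
    LoHi α A B x ↔ cur α A B (x 0) < x 1 := by
  constructor
  · intro ht
    rcases lt_trichotomy (x 1) (cur α A B (x 0)) with hc | hc | hc
    · exact (not_loHi_of_hiLo h (hiLo_of_lt_cur h hx hc) ht).elim
    · exact (not_tendsto_of_loHi h ht ((tendsto_iff_cur h hx).2 hc)).elim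
    · exact hc
  · exact loHi_of_cur_lt h hx

theorem hiLo_iff_cur (h : Par α A B) (hx : IsSol α A B x) :
    HiLo α A B x ↔ x 1 < cur α A B (x 0) := by
  constructor
  · intro ht
    rcases lt_trichotomy (x 1) (cur α A B (x 0)) with hc | hc | hc
    · exact hc
    · exact (not_tendsto_of_hiLo h ht ((tendsto_iff_cur h hx).2 hc)).elim
    · exact (not_loHi_of_hiLo h ht (loHi_of_cur_lt h hx hc)).elim
  · exact hiLo_of_lt_cur h hx

theorem cur_strictMono (h : Par α A B) : StrictMonoOn (cur α A B) (Ici 0) := by
  intro a ha a' ha' haa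
  by_contra hc
  push Not at hc
  have ha0 : (0 : ℝ) ≤ a := ha
  have ha'0 : (0 : ℝ) ≤ a' := ha'
  have h1 : HiLo α A B (sol α A B a' (cur α A B a')) :=
    hiLo_of_W h (cur_isSol h ha0) (cur_isSol h ha'0) (cur_spec h ha0).2.2 haa.le hc (Or.inl haa)
  exact not_tendsto_of_hiLo h h1 (cur_spec h ha'0).2.2

theorem cur_pos (h : Par α A B) {a : ℝ} (ha : 0 ≤ a) : 0 < cur α A B a := by
  rcases ha.lt_or_eq with h1 | h1
  · exact (cur_spec h le_rfl).1.trans_lt (cur_strictMono h (mem_Ici.2 le_rfl) (mem_Ici.2 ha) h1)
  · rw [← h1]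
    by_contra hc
    push Not at hc
    have h2 := cur_spec h (le_refl (0 : ℝ))
    have h3 : cur α A B 0 = 0 := le_antisymm hc h2.1
    obtain ⟨b, c1, c2, c3⟩ := exists_lower h (le_refl (0 : ℝ))
    have hs := isSol_sol (α := α) (B := B) le_rfl c1 c2
    have := (hiLo_iff_cur h hs).1 c3
    change b < cur α A B 0 at this
    linarith

theorem cur_eqp (h : Par α A B) : cur α A B (eqp α A B) = eqp α A B :=
  ((tendsto_iff_cur h (IsSol.const h)).1 tendsto_const_nhds).symm

/-- the curve is invariant -/
theorem cur_next (h : Par α A B) (hx : IsSol α A B x) (hc : x 1 = cur α A B (x 0)) (n : ℕ) :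
    x (n + 1) = cur α A B (x n) := by
  have ht := (tendsto_iff_cur h hx).2 hc
  have := (tendsto_iff_cur h (hx.shift h n)).1 (ht.comp (tendsto_add_atTop_nat n))
  simpa [add_comm] using this

theorem cur_eq (h : Par α A B) {a : ℝ} (ha : 0 ≤ a) :
    cur α A B (cur α A B a) * (A + B * cur α A B a + a) = α + a := by
  have hs := cur_isSol h ha
  have h1 := cur_next h hs rfl 1
  have h2 := hs.step 0
  have h3 := hs.den h 0
  simp only [zero_add] at h2 h3
  rw [show (1 + 1 : ℕ) = 2 by rfl, h2] at h1
  change (α + a) / (A + B * cur α A B a + a) = cur α A B (cur α A B a) at h1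
  change 0 < A + B * cur α A B a + a at h3
  rw [← h1, div_mul_cancel₀ _ h3.ne']

theorem cur_continuousOn (h : Par α A B) : ContinuousOn (cur α A B) (Ici 0) := by
  intro a0 ha0
  have ha00 : (0 : ℝ) ≤ a0 := ha0
  have hpos := cur_pos h ha00
  refine tendsto_order.2 ⟨fun y hy => ?_, fun y hy => ?_⟩
  · -- y < cur a0
    rcases le_or_gt y 0 with hy0 | hy0
    · filter_upwards [self_mem_nhdsWithin] with a ha
      exact hy0.trans_lt (cur_pos h ha)
    · have hA := h.hA
      have hs := isSol_sol (α := α) (B := B) (A := A) ha00 hy0.le (by linarith : 0 < A + a0 + y)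
      obtain ⟨k, h1, h2⟩ := (hiLo_iff h hs).1 ((hiLo_iff_cur h hs).2 hy)
      have hc : ∀ n, ContinuousWithinAt (fun a : ℝ => sol α A B a y n) (Ici 0) a0 := by
        intro n
        have h3 := continuousOn_sol h n
        have h4 : ContinuousOn (fun a : ℝ => sol α A B a y n) (Ici 0) :=
          h3.comp (f := fun a : ℝ => (a, y)) (by fun_prop)
            (fun a ha => ⟨ha, hy0.le, by
              have : (0 : ℝ) ≤ a := ha
              change 0 < A + a + y
              linarith⟩)
        exact h4 a0 ha0
      filter_upwards [(hc (2 * k)).eventually (lt_mem_nhds h1),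
        (hc (2 * k + 1)).eventually (gt_mem_nhds h2), self_mem_nhdsWithin] with a g1 g2 ha
      have ha' : (0 : ℝ) ≤ a := ha
      have hs' := isSol_sol (α := α) (B := B) (A := A) ha' hy0.le (by linarith : 0 < A + a + y)
      exact (hiLo_iff_cur h hs').1 ((hiLo_iff h hs').2 ⟨k, g1, g2⟩)
  · have hy0 : 0 < y := hpos.trans hy
    have hA := h.hA
    have hs := isSol_sol (α := α) (B := B) (A := A) ha00 hy0.le (by linarith : 0 < A + a0 + y)
    obtain ⟨k, h1, h2⟩ := (loHi_iff h hs).1 ((loHi_iff_cur h hs).2 hy)
    have hc : ∀ n, ContinuousWithinAt (fun a : ℝ => sol α A B a y n) (Ici 0) a0 := by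
      intro n
      have h3 := continuousOn_sol h n
      have h4 : ContinuousOn (fun a : ℝ => sol α A B a y n) (Ici 0) :=
        h3.comp (f := fun a : ℝ => (a, y)) (by fun_prop)
          (fun a ha => ⟨ha, hy0.le, by
            have : (0 : ℝ) ≤ a := ha
            change 0 < A + a + y
            linarith⟩)
      exact h4 a0 ha0
    filter_upwards [(hc (2 * k)).eventually (gt_mem_nhds h1),
      (hc (2 * k + 1)).eventually (lt_mem_nhds h2), self_mem_nhdsWithin] with a g1 g2 ha
    have ha' : (0 : ℝ) ≤ a := ha
    have hs' := isSol_sol (α := α) (B := B) (A := A) ha' hy0.le (by linarith : 0 < A + a + y)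
    exact (loHi_iff_cur h hs').1 ((loHi_iff h hs').2 ⟨k, g1, g2⟩)

/-- solutions on the curve of a nondecreasing solution of the functional equation -/
theorem unique_fun (h : Par α A B) {g : ℝ → ℝ} (hm : MonotoneOn g (Ici 0))
    (h0 : ∀ a, 0 ≤ a → 0 ≤ g a)
    (he : ∀ a, 0 ≤ a → g (g a) * (A + B * g a + a) = α + a) {a : ℝ} (ha : 0 ≤ a) :
    g a = cur α A B a := by
  have hα := h.hα
  have hA := h.hA
  have hB := h.hB
  have hne : ∀ a, 0 ≤ a → 0 < A + B * g a + a := by
    intro a ha
    have h1 := he a ha
    have h2 := h0 a ha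
    have h3 : 0 ≤ A + B * g a + a := by positivity
    rcases h3.lt_or_eq with h3 | h3
    · exact h3
    · rw [← h3, mul_zero] at h1
      linarith
  have hadm : 0 < A + a + g a := by
    have h1 := hne a ha
    have h2 := h0 a ha
    by_contra hc
    push Not at hc
    have : g a = 0 := by linarith
    rw [this] at h1 hc
    linarith
  have hs := isSol_sol (α := α) (B := B) (A := A) ha (h0 a ha) hadm
  set z := sol α A B a (g a) with hz
  have hnext : ∀ n, z (n + 1) = g (z n) := by
    intro n
    induction n with
    | zero => rfl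
    | succ n ih =>
      rw [hs.step n]
      have h1 := hs.nonneg h n
      have h2 := he (z n) h1
      have h3 := hne (z n) h1
      rw [ih, div_eq_iff h3.ne', h2]
  have hmon : Monotone z ∨ Antitone z := by
    rcases le_total (z 0) (z 1) with h1 | h1
    · left
      apply monotone_nat_of_le_succ
      intro n
      induction n with
      | zero => exact h1
      | succ n ih =>
        rw [hnext n, hnext (n + 1)]
        exact hm (hs.nonneg h n) (hs.nonneg h (n + 1)) ih
    · right
      apply antitone_nat_of_succ_le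
      intro n
      induction n with
      | zero => exact h1
      | succ n ih =>
        rw [hnext n, hnext (n + 1)]
        exact hm (hs.nonneg h (n + 1)) (hs.nonneg h n) ih
  exact (tendsto_iff_cur h hs).1 (tendsto_of_monotone h hs hmon)

/-- a solution converges to the equilibrium if and only if it is monotone -/
theorem tendsto_iff_monotone (h : Par α A B) (hx : IsSol α A B x) :
    Tendsto x atTop (𝓝 (eqp α A B)) ↔ Monotone x ∨ Antitone x := by
  refine ⟨fun ht => ?_, tendsto_of_monotone h hx⟩
  have hnext := cur_next h hx ((tendsto_iff_cur h hx).1 ht)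
  have hm := (cur_strictMono h).monotoneOn
  rcases le_total (x 0) (x 1) with h1 | h1
  · left
    apply monotone_nat_of_le_succ
    intro n
    induction n with
    | zero => exact h1
    | succ n ih =>
      rw [hnext n, hnext (n + 1)]
      exact hm (hx.nonneg h n) (hx.nonneg h (n + 1)) ih
  · right
    apply antitone_nat_of_succ_le
    intro n
    induction n with
    | zero => exact h1
    | succ n ih =>
      rw [hnext n, hnext (n + 1)]
      exact hm (hx.nonneg h (n + 1)) (hx.nonneg h n) ih

/-- the line through the equilibrium on which the next term is the equilibrium -/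
noncomputable def lin (α A B a : ℝ) : ℝ :=
  ((1 - eqp α A B) * a + α - A * eqp α A B) / (B * eqp α A B)

/-- explicit bounds for the curve on the left of the equilibrium -/
theorem cur_left (h : Par α A B) {a : ℝ} (ha : 0 ≤ a) (hae : a < eqp α A B) :
    a < cur α A B a ∧ lin α A B a < cur α A B a ∧ cur α A B a < eqp α A B := by
  have hB := h.hB
  have he := eqp_pos h
  have hlt : cur α A B a < eqp α A B := by
    have := cur_strictMono h (mem_Ici.2 ha) (mem_Ici.2 he.le) hae
    rwa [cur_eqp h] at this
  have hs := cur_isSol h ha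
  refine ⟨?_, ?_, hlt⟩
  · by_contra hc
    push Not at hc
    -- then the solution is nonincreasing and converges to a number below the equilibrium
    have h1 := cur_next h hs rfl
    have hanti : Antitone (sol α A B a (cur α A B a)) := by
      apply antitone_nat_of_succ_le
      intro n
      induction n with
      | zero => exact hc
      | succ n ih =>
        rw [h1 n, h1 (n + 1)]
        exact (cur_strictMono h).monotoneOn (hs.nonneg h (n + 1)) (hs.nonneg h n) ih
    have h2 := le_of_tendsto' (cur_spec h ha).2.2 fun n => hanti (Nat.zero_le n)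
    have h3 : sol α A B a (cur α A B a) 0 = a := rfl
    rw [h3] at h2
    linarith
  · have h1 := cur_eq h ha
    have h2 := cur_pos h ha
    have h3 : cur α A B (cur α A B a) < eqp α A B := by
      have := cur_strictMono h (mem_Ici.2 h2.le) (mem_Ici.2 he.le) hlt
      rwa [cur_eqp h] at this
    have h4 : 0 < A + B * cur α A B a + a := by
      have := h.hA
      positivity
    have h5 : α + a < eqp α A B * (A + B * cur α A B a + a) := by
      rw [← h1]
      exact mul_lt_mul_of_pos_right h3 h4
    unfold lin
    rw [div_lt_iff₀ (by positivity)]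
    linarith

/-- explicit bounds for the curve on the right of the equilibrium -/
theorem cur_right (h : Par α A B) {a : ℝ} (hae : eqp α A B < a) :
    eqp α A B < cur α A B a ∧ cur α A B a < lin α A B a ∧ cur α A B a < a := by
  have hB := h.hB
  have he := eqp_pos h
  have ha : 0 ≤ a := by linarith
  have hlt : eqp α A B < cur α A B a := by
    have := cur_strictMono h (mem_Ici.2 he.le) (mem_Ici.2 ha) hae
    rwa [cur_eqp h] at this
  have hs := cur_isSol h ha
  refine ⟨hlt, ?_, ?_⟩
  · have h1 := cur_eq h ha
    have h2 := cur_pos h ha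
    have h3 : eqp α A B < cur α A B (cur α A B a) := by
      have := cur_strictMono h (mem_Ici.2 he.le) (mem_Ici.2 h2.le) hlt
      rwa [cur_eqp h] at this
    have h4 : 0 < A + B * cur α A B a + a := by
      have := h.hA
      positivity
    have h5 : eqp α A B * (A + B * cur α A B a + a) < α + a := by
      rw [← h1]
      exact mul_lt_mul_of_pos_right h3 h4
    unfold lin
    rw [lt_div_iff₀ (by positivity)]
    linarith
  · by_contra hc
    push Not at hc
    have h1 := cur_next h hs rfl
    have hmon : Monotone (sol α A B a (cur α A B a)) := by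
      apply monotone_nat_of_le_succ
      intro n
      induction n with
      | zero => exact hc
      | succ n ih =>
        rw [h1 n, h1 (n + 1)]
        exact (cur_strictMono h).monotoneOn (hs.nonneg h n) (hs.nonneg h (n + 1)) ih
    have h2 := ge_of_tendsto' (cur_spec h ha).2.2 fun n => hmon (Nat.zero_le n)
    have h3 : sol α A B a (cur α A B a) 0 = a := rfl
    rw [h3] at h2
    linarith

end Pool.Agent.Q64.TC
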