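import Pool.Agent.Q64.TC.Tri

set_option autoImplicit false

open Filter Topology Set

namespace Pool.Agent.Q64.TC

variable {α A B : ℝ} {x y : ℕ → ℝ}

/-- `x n` tends to the larger number of the two-cycle along the even `n` and to the smaller one
along the odd `n`. -/
def HiLo (α A B : ℝ) (x : ℕ → ℝ) : Prop :=
  Tendsto (fun k => x (2 * k)) atTop (𝓝 (hi α A B)) ∧
    Tendsto (fun k => x (2 * k + 1)) atTop (𝓝 (lo α A B))

/-- `x n` tends to the smaller number of the two-cycle along the even `n` and to the larger one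
along the odd `n`. -/
def LoHi (α A B : ℝ) (x : ℕ → ℝ) : Prop :=
  Tendsto (fun k => x (2 * k)) atTop (𝓝 (lo α A B)) ∧
    Tendsto (fun k => x (2 * k + 1)) atTop (𝓝 (hi α A B))

theorem hiLo_shift_iff : HiLo α A B (fun n => x (n + 1)) ↔ LoHi α A B x := by
  have e1 : (fun k => x (2 * k + 1 + 1)) = fun k => (fun j => x (2 * j)) (k + 1) := by
    funext k
    congr 1
  unfold HiLo LoHi
  constructor
  · rintro ⟨h1, h2⟩
    refine ⟨?_, h1⟩
    rw [e1] at h2
    exact (tendsto_add_atTop_iff_nat 1).1 h2
  · rintro ⟨h1, h2⟩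
    refine ⟨h2, ?_⟩
    rw [e1]
    exact (tendsto_add_atTop_iff_nat 1).2 h1

theorem loHi_shift_iff : LoHi α A B (fun n => x (n + 1)) ↔ HiLo α A B x := by
  have e1 : (fun k => x (2 * k + 1 + 1)) = fun k => (fun j => x (2 * j)) (k + 1) := by
    funext k
    congr 1
  unfold HiLo LoHi
  constructor
  · rintro ⟨h1, h2⟩
    refine ⟨?_, h1⟩
    rw [e1] at h2
    exact (tendsto_add_atTop_iff_nat 1).1 h2
  · rintro ⟨h1, h2⟩
    refine ⟨h2, ?_⟩
    rw [e1]
    exact (tendsto_add_atTop_iff_nat 1).2 h1

theorem tendsto_even {p : ℝ} (h : Tendsto x atTop (𝓝 p)) :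
    Tendsto (fun k => x (2 * k)) atTop (𝓝 p) :=
  h.comp (tendsto_id.const_mul_atTop' (by norm_num : 0 < 2))

theorem tendsto_odd {p : ℝ} (h : Tendsto x atTop (𝓝 p)) :
    Tendsto (fun k => x (2 * k + 1)) atTop (𝓝 p) :=
  (h.comp (tendsto_add_atTop_nat 1)).comp (tendsto_id.const_mul_atTop' (by norm_num : 0 < 2))

theorem not_both' (h : Par α A B) (hx : IsSol α A B x) (hy : IsSol α A B y)
    (hg : ∀ n, α < A + B * x (n + 1)) (h0 : dif x y 0 ≤ 0) (h1 : dif x y 1 ≤ 0)
    (h2 : dif x y 0 < 0 ∨ dif x y 1 < 0) (tx : Tendsto x atTop (𝓝 (eqp α A B)))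
    (ty : Tendsto y atTop (𝓝 (eqp α A B))) : False := by
  have h3 : dif x y 2 < 0 := by
    have h3 := dif_step h hx hy 0
    have h4 := ca_pos h hx hy 0
    have h5 := cb_pos h hx hy 0 (hg 0)
    rw [show (2 : ℕ) = 0 + 2 by rfl, h3]
    rcases h2 with i3 | i3
    · have := mul_neg_of_pos_of_neg h5 i3
      have := mul_nonpos_of_nonneg_of_nonpos h4.le h1
      simp only [zero_add]
      linarith
    · have := mul_neg_of_pos_of_neg h4 i3
      have := mul_nonpos_of_nonneg_of_nonpos h5.le h0
      simp only [zero_add]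
      linarith
  refine not_both h (hx.shift h 1) (hy.shift h 1) (fun n => hg (n + 1)) ?_ ?_ ?_
    (tx.comp (tendsto_add_atTop_nat 1)) (ty.comp (tendsto_add_atTop_nat 1))
  · rw [dif_swap_sign]
    simpa using h1
  · rw [dif_swap_sign]
    simpa using h3.le
  · right
    rw [dif_swap_sign]
    simpa using h3

theorem dif_even (k : ℕ) : dif x y (2 * k) = y (2 * k) - x (2 * k) := by
  unfold dif
  rw [neg_one_pow_two_mul', one_mul]

theorem dif_odd (k : ℕ) : dif x y (2 * k + 1) = -(y (2 * k + 1) - x (2 * k + 1)) := by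
  unfold dif
  rw [pow_succ, neg_one_pow_two_mul', one_mul, neg_one_mul]

/-- a solution ordered with respect to a solution converging to the equilibrium -/
theorem hiLo_of_order (h : Par α A B) (hx : IsSol α A B x) (hy : IsSol α A B y)
    (hg : ∀ n, α < A + B * x (n + 1)) (tx : Tendsto x atTop (𝓝 (eqp α A B)))
    (h0 : x 0 ≤ y 0) (h1 : y 1 ≤ x 1) (h2 : x 0 < y 0 ∨ y 1 < x 1) : HiLo α A B y := by
  have d0 : 0 ≤ dif x y 0 := by
    have := dif_even (x := x) (y := y) 0
    simp only [mul_zero] at this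
    rw [this]
    linarith
  have d1 : 0 ≤ dif x y 1 := by
    have := dif_odd (x := x) (y := y) 0
    simp only [mul_zero, zero_add] at this
    rw [this]
    linarith
  have d2 : 0 < dif x y 0 ∨ 0 < dif x y 1 := by
    have a1 := dif_even (x := x) (y := y) 0
    have a2 := dif_odd (x := x) (y := y) 0
    simp only [mul_zero, zero_add] at a1 a2
    rw [a1, a2]
    rcases h2 with h2 | h2
    · left; linarith
    · right; linarith
  have hall := fun n => dif_nonneg_from h hx hy hg 0 d0 d1 n (Nat.zero_le n)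
  have hev : ∀ k, x (2 * k) ≤ y (2 * k) := by
    intro k
    have := hall (2 * k)
    rw [dif_even] at this
    linarith
  rcases trichotomy h hy with ht | ht | ht
  · exact (not_both h hx hy hg d0 d1 d2 tx ht).elim
  · exfalso
    have h3 := le_of_tendsto_of_tendsto' (tendsto_even tx) ht.1 hev
    have := (lo_lt_eqp h).1
    linarith
  · exact ht

theorem loHi_of_order (h : Par α A B) (hx : IsSol α A B x) (hy : IsSol α A B y)
    (hg : ∀ n, α < A + B * x (n + 1)) (tx : Tendsto x atTop (𝓝 (eqp α A B)))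
    (h0 : y 0 ≤ x 0) (h1 : x 1 ≤ y 1) (h2 : y 0 < x 0 ∨ x 1 < y 1) : LoHi α A B y := by
  have d0 : dif x y 0 ≤ 0 := by
    have := dif_even (x := x) (y := y) 0
    simp only [mul_zero] at this
    rw [this]
    linarith
  have d1 : dif x y 1 ≤ 0 := by
    have := dif_odd (x := x) (y := y) 0
    simp only [mul_zero, zero_add] at this
    rw [this]
    linarith
  have d2 : dif x y 0 < 0 ∨ dif x y 1 < 0 := by
    have a1 := dif_even (x := x) (y := y) 0
    have a2 := dif_odd (x := x) (y := y) 0
    simp only [mul_zero, zero_add] at a1 a2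
    rw [a1, a2]
    rcases h2 with h2 | h2
    · left; linarith
    · right; linarith
  have hall := fun n => dif_nonpos_from h hx hy hg 0 d0 d1 n (Nat.zero_le n)
  have hev : ∀ k, y (2 * k) ≤ x (2 * k) := by
    intro k
    have := hall (2 * k)
    rw [dif_even] at this
    linarith
  rcases trichotomy h hy with ht | ht | ht
  · exact (not_both' h hx hy hg d0 d1 d2 tx ht).elim
  · exact ht
  · exfalso
    have h3 := le_of_tendsto_of_tendsto' ht.1 (tendsto_even tx) hev
    have := (lo_lt_eqp h).2
    linarith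

/-- the quadrants at the equilibrium -/
theorem hiLo_of_quad (h : Par α A B) (hy : IsSol α A B y) (h0 : eqp α A B ≤ y 0)
    (h1 : y 1 ≤ eqp α A B) (h2 : eqp α A B < y 0 ∨ y 1 < eqp α A B) : HiLo α A B y :=
  hiLo_of_order h (IsSol.const h) hy (fun _ => eqp_good h) tendsto_const_nhds h0 h1 h2

theorem loHi_of_quad (h : Par α A B) (hy : IsSol α A B y) (h0 : y 0 ≤ eqp α A B)
    (h1 : eqp α A B ≤ y 1) (h2 : y 0 < eqp α A B ∨ eqp α A B < y 1) : LoHi α A B y :=
  loHi_of_order h (IsSol.const h) hy (fun _ => eqp_good h) tendsto_const_nhds h0 h1 h2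

theorem not_tendsto_of_hiLo (h : Par α A B) (hy : HiLo α A B y) :
    ¬ Tendsto y atTop (𝓝 (eqp α A B)) := by
  intro ht
  have := tendsto_nhds_unique hy.1 (tendsto_even ht)
  have := (lo_lt_eqp h).2
  linarith

theorem not_tendsto_of_loHi (h : Par α A B) (hy : LoHi α A B y) :
    ¬ Tendsto y atTop (𝓝 (eqp α A B)) := by
  intro ht
  have := tendsto_nhds_unique hy.1 (tendsto_even ht)
  have := (lo_lt_eqp h).1
  linarith

theorem not_loHi_of_hiLo (h : Par α A B) (hy : HiLo α A B y) : ¬ LoHi α A B y := by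
  intro ht
  have := tendsto_nhds_unique hy.1 ht.1
  have := lo_lt_hi h
  linarith

/-- The terms from the second initial value on of a solution converging to the equilibrium are in
the region where the right-hand side is increasing in the second previous term. -/
theorem good_of_tendsto (h : Par α A B) (hx : IsSol α A B x)
    (tx : Tendsto x atTop (𝓝 (eqp α A B))) (n : ℕ) : α < A + B * x (n + 1) := by
  by_contra hc
  push Not at hc
  have h1 := one_le_of_bad h hx n hc
  have h2 := lt_eqp_of_bad h hc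
  have h3 := eqp_lt_one h
  have h4 : LoHi α A B (fun k => x (k + (n + 1))) := by
    apply loHi_of_quad h (hx.shift h _)
    · simpa using h2.le
    · change eqp α A B ≤ x (1 + (n + 1))
      rw [show 1 + (n + 1) = n + 2 by ring]
      linarith
    · left
      simpa using h2
  exact not_tendsto_of_loHi h h4 (tx.comp (tendsto_add_atTop_nat (n + 1)))

theorem hiLo_of_W (h : Par α A B) (hx : IsSol α A B x) (hy : IsSol α A B y)
    (tx : Tendsto x atTop (𝓝 (eqp α A B)))
    (h0 : x 0 ≤ y 0) (h1 : y 1 ≤ x 1) (h2 : x 0 < y 0 ∨ y 1 < x 1) : HiLo α A B y :=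
  hiLo_of_order h hx hy (good_of_tendsto h hx tx) tx h0 h1 h2

theorem loHi_of_W (h : Par α A B) (hx : IsSol α A B x) (hy : IsSol α A B y)
    (tx : Tendsto x atTop (𝓝 (eqp α A B)))
    (h0 : y 0 ≤ x 0) (h1 : x 1 ≤ y 1) (h2 : y 0 < x 0 ∨ x 1 < y 1) : LoHi α A B y :=
  loHi_of_order h hx hy (good_of_tendsto h hx tx) tx h0 h1 h2

theorem hiLo_iter : ∀ (n : ℕ), HiLo α A B (fun k => x (k + 2 * n)) ↔ HiLo α A B x := by
  intro n
  induction n with
  | zero => rfl
  | succ n ih =>
    rw [← ih, ← loHi_shift_iff (x := fun k => x (k + 2 * n)),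
      ← hiLo_shift_iff (x := fun m => (fun k => x (k + 2 * n)) (m + 1))]
    have : (fun k => x (k + 2 * (n + 1))) =
        fun m => (fun m => (fun k => x (k + 2 * n)) (m + 1)) (m + 1) := by
      funext m
      simp only
      congr 1
      ring
    rw [this]

theorem loHi_iter (n : ℕ) : LoHi α A B (fun k => x (k + 2 * n)) ↔ LoHi α A B x := by
  rw [← hiLo_shift_iff, ← hiLo_shift_iff (x := x), ← hiLo_iter (x := fun n => x (n + 1)) n]
  have : (fun m => (fun k => x (k + 2 * n)) (m + 1)) =
      fun k => (fun m => x (m + 1)) (k + 2 * n) := by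
    funext m
    simp only
    congr 1
    ring
  rw [this]

/-- finite criterion -/
theorem hiLo_iff (h : Par α A B) (hx : IsSol α A B x) :
    HiLo α A B x ↔ ∃ k, eqp α A B < x (2 * k) ∧ x (2 * k + 1) < eqp α A B := by
  constructor
  · rintro ⟨h1, h2⟩
    have a1 := (tendsto_order.1 h1).1 _ (lo_lt_eqp h).2
    have a2 := (tendsto_order.1 h2).2 _ (lo_lt_eqp h).1
    exact (a1.and a2).exists
  · rintro ⟨k, h1, h2⟩
    rw [← hiLo_iter k]
    apply hiLo_of_quad h (hx.shift h _)
    · simpa using h1.le
    · simpa [add_comm] using h2.le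
    · left
      simpa using h1

theorem loHi_iff (h : Par α A B) (hx : IsSol α A B x) :
    LoHi α A B x ↔ ∃ k, x (2 * k) < eqp α A B ∧ eqp α A B < x (2 * k + 1) := by
  constructor
  · rintro ⟨h1, h2⟩
    have a1 := (tendsto_order.1 h1).2 _ (lo_lt_eqp h).1
    have a2 := (tendsto_order.1 h2).1 _ (lo_lt_eqp h).2
    exact (a1.and a2).exists
  · rintro ⟨k, h1, h2⟩
    rw [← loHi_iter k]
    apply loHi_of_quad h (hx.shift h _)
    · simpa using h1.le
    · simpa [add_comm] using h2.le
    · left
      simpa using h1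

/-- The solution converges to the equilibrium if and only if two consecutive terms are never on
different sides of the equilibrium. -/
theorem tendsto_iff_sides (h : Par α A B) (hx : IsSol α A B x) :
    Tendsto x atTop (𝓝 (eqp α A B)) ↔
      ∀ n, 0 ≤ (x n - eqp α A B) * (x (n + 1) - eqp α A B) := by
  constructor
  · intro ht n
    by_contra hc
    push Not at hc
    have hts := ht.comp (tendsto_add_atTop_nat n)
    rcases mul_neg_iff.1 hc with ⟨h1, h2⟩ | ⟨h1, h2⟩
    · apply not_tendsto_of_hiLo h _ hts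
      apply hiLo_of_quad h (hx.shift h n)
      · simp only [zero_add]; linarith
      · simp only [add_comm 1 n]; linarith
      · left; simp only [zero_add]; linarith
    · apply not_tendsto_of_loHi h _ hts
      apply loHi_of_quad h (hx.shift h n)
      · simp only [zero_add]; linarith
      · simp only [add_comm 1 n]; linarith
      · left; simp only [zero_add]; linarith
  · intro hall
    rcases trichotomy h hx with ht | ht | ht
    · exact ht
    · exfalso
      obtain ⟨k, h1, h2⟩ := (loHi_iff h hx).1 ht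
      have := hall (2 * k)
      have := mul_neg_of_neg_of_pos (sub_neg.2 h1) (sub_pos.2 h2)
      linarith
    · exfalso
      obtain ⟨k, h1, h2⟩ := (hiLo_iff h hx).1 ht
      have := hall (2 * k)
      have := mul_neg_of_pos_of_neg (sub_pos.2 h1) (sub_neg.2 h2)
      linarith

/-- A monotone solution converges to the equilibrium. -/
theorem tendsto_of_monotone (h : Par α A B) (hx : IsSol α A B x)
    (hm : Monotone x ∨ Antitone x) : Tendsto x atTop (𝓝 (eqp α A B)) := by
  have hll := lo_lt_hi h
  rcases trichotomy h hx with ht | ht | ht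
  · exact ht
  · exfalso
    rcases hm with hm | hm
    · have a := (tendsto_add_atTop_iff_nat (f := fun k => x (2 * k)) 1).2 ht.1
      have := le_of_tendsto_of_tendsto' ht.2 a fun k => hm (show 2 * k + 1 ≤ 2 * (k + 1) by omega)
      linarith
    · have := le_of_tendsto_of_tendsto' ht.2 ht.1 fun k => hm (show 2 * k ≤ 2 * k + 1 by omega)
      linarith
  · exfalso
    rcases hm with hm | hm
    · have := le_of_tendsto_of_tendsto' ht.1 ht.2 fun k => hm (show 2 * k ≤ 2 * k + 1 by omega)
      linarith
    · have a := (tendsto_add_atTop_iff_nat (f := fun k => x (2 * k)) 1).2 ht.1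
      have := le_of_tendsto_of_tendsto' a ht.2 fun k => hm (show 2 * k + 1 ≤ 2 * (k + 1) by omega)
      linarith

end Pool.Agent.Q64.TC
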