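import Pool.Agent.Q64.TC.Lim

set_option autoImplicit false

open Filter Topology Set

namespace Pool.Agent.Q64.TC

variable {α A B : ℝ} {x y : ℕ → ℝ}

theorem alpha_sub_lt (h : Par α A B) : α - A < B := by
  have h1 := h.hH
  have h2 := h.hB
  have h3 := h.hA
  have h4 := h.hA1
  have h5 : (1 - A) ^ 2 ≤ 1 := by nlinarith
  have h6 : (B - 1) * (1 - A) ^ 2 ≤ (B - 1) * 1 := mul_le_mul_of_nonneg_left h5 (by linarith)
  linarith

theorem good_step (h : Par α A B) {u v : ℝ} (hv : 0 ≤ v) (hg : α < A + B * v) (hu : 0 ≤ u)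
    (hu1 : u ≤ 1) : α < A + B * ((α + v) / (A + B * u + v)) := by
  have h1 := h.hα
  have h2 := h.hB
  have h3 := h.hA
  have hv' : 0 < A + v := by
    by_contra hc
    push Not at hc
    have h4 : v = 0 := by linarith
    have h5 : A = 0 := by linarith
    rw [h4, h5] at hg
    linarith
  have hD : 0 < A + B * u + v := by
    have : 0 ≤ B * u := by positivity
    linarith
  have key : (α - A) * (A + B * u + v) < B * (α + v) := by
    rcases le_or_gt (α - A) 0 with hd | hd
    · have h4 : (α - A) * (A + B * u + v) ≤ 0 := mul_nonpos_of_nonpos_of_nonneg hd hD.le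
      have h5 : 0 < B * (α + v) := by positivity
      linarith
    · have h4 := alpha_sub_lt h
      have h5 : (α - A) * (A + B * u + v) ≤ (α - A) * (A + B + v) := by
        apply mul_le_mul_of_nonneg_left _ hd.le
        have : B * u ≤ B * 1 := mul_le_mul_of_nonneg_left hu1 (by linarith)
        linarith
      have h6 : 0 < (B - (α - A)) * (B * v - (α - A)) :=
        mul_pos (by linarith) (by linarith)
      have h7 : 0 ≤ (B - (α - A)) * (B * A) := by
        apply mul_nonneg (by linarith)
        positivity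
      have h8 : 0 < (B - (α - A)) * (α - A) := mul_pos (by linarith) hd
      have h9 : B * ((α - A) * (A + B + v)) < B * (B * (α + v)) := by
        nlinarith
      have h10 := lt_of_mul_lt_mul_left h9 (by linarith)
      linarith
  have h11 : α - A < B * (α + v) / (A + B * u + v) := by
    rw [lt_div_iff₀ hD]
    exact key
  rw [mul_div_assoc] at h11
  linarith

theorem bad_growth (h : Par α A B) {t v v0 : ℝ} (ht : 0 ≤ t) (hv0 : 0 < v0) (hv : v0 ≤ v)
    (hb : A + B * v ≤ α) :
    v + v0 * (3 / 4 * (1 - A)) / (A + α / v0 + 1) ≤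
      (α + v) / (A + B * ((α + t) / (A + B * v + t)) + v) := by
  have h1 := h.hα
  have h2 := h.hB
  have h3 := h.hA
  have h4 := h.hA1
  have hH := h.hH
  have hvp : 0 < v := by linarith
  have hv1 : v < 1 := (lt_eqp_of_bad h hb).trans (eqp_lt_one h)
  set u := (α + t) / (A + B * v + t) with hu
  have hBv : 0 < B * v := by positivity
  have hden : 0 < A + B * v := by positivity
  have hu0 : 0 ≤ u := by positivity
  have hu1 : u ≤ α / (A + B * v) := by
    rw [hu, div_le_div_iff₀ (by positivity) hden]
    nlinarith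
  have hu2 : u * (A + B * v) ≤ α := by
    rwa [le_div_iff₀ hden] at hu1
  have hBuv : B * u * v ≤ α := by
    have : 0 ≤ u * A := by positivity
    nlinarith
  have hBu : B * u ≤ α / v0 := by
    rw [le_div_iff₀ hv0]
    have : B * u * v0 ≤ B * u * v := mul_le_mul_of_nonneg_left hv (by positivity)
    linarith
  have hv2 : v ≤ (1 - A) / 4 := by
    have h5 : B * v < B * ((1 - A) / 4) := by
      have h6 : (1 - A) ^ 2 ≤ 1 - A := by nlinarith
      have h7 : (B - 1) * (1 - A) ^ 2 ≤ B * (1 - A) := by
        have : (B - 1) * (1 - A) ^ 2 ≤ (B - 1) * (1 - A) :=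
          mul_le_mul_of_nonneg_left h6 (by linarith)
        nlinarith
      linarith
    exact (lt_of_mul_lt_mul_left h5 (by linarith)).le
  have hD : 0 < A + B * u + v := by positivity
  have hD0 : 0 < A + α / v0 + 1 := by positivity
  rw [← sub_nonneg]
  have h8 : (α + v) / (A + B * u + v) - (v + v0 * (3 / 4 * (1 - A)) / (A + α / v0 + 1)) =
      (α + v - v * (A + B * u + v)) / (A + B * u + v) -
        v0 * (3 / 4 * (1 - A)) / (A + α / v0 + 1) := by
    field_simp
    ring
  rw [h8, sub_nonneg]
  apply div_le_div₀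
  · nlinarith
  · have h9 : v0 * (3 / 4 * (1 - A)) ≤ v * (1 - A - v) := by
      have h10 : v0 * (3 / 4 * (1 - A)) ≤ v * (3 / 4 * (1 - A)) :=
        mul_le_mul_of_nonneg_right hv (by linarith)
      have h11 : v * (3 / 4 * (1 - A)) ≤ v * (1 - A - v) :=
        mul_le_mul_of_nonneg_left (by linarith) hvp.le
      linarith
    nlinarith
  · exact hD
  · linarith

/-- The terms are eventually in the region where the right-hand side is increasing in the second
previous term. -/
theorem ev_good (h : Par α A B) (hx : IsSol α A B x) :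
    ∃ N, ∀ n, α < A + B * x (n + N) := by
  by_cases hall : ∀ n, α < A + B * x (n + 2)
  · exact ⟨2, hall⟩
  push Not at hall
  obtain ⟨n0, hn0⟩ := hall
  have hB := h.hB
  set w : ℕ → ℝ := fun n => x (n + (n0 + 2)) with hw
  have hws : IsSol α A B w := hx.shift h _
  have hw0 : w 0 < eqp α A B := by
    apply lt_eqp_of_bad h
    simpa [hw] using hn0
  have hw1 : eqp α A B < w 1 := by
    have h1 := one_le_of_bad h hx (n0 + 1) hn0
    have h2 : w 1 = x (n0 + 1 + 2) := by
      simp only [hw]
      congr 1
      ring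
    rw [h2]
    exact (eqp_lt_one h).trans_le h1
  have hw0pos : 0 < w 0 := by
    have := hx.pos h n0
    simpa [hw] using this
  have hq : ∀ k, w (2 * k) < eqp α A B ∧ eqp α A B < w (2 * k + 1) := by
    intro k
    rcases k with _ | k
    · exact ⟨hw0, hw1⟩
    · have := quad_lt h hws hw0.le hw1.le (Or.inl hw0) k
      rw [show 2 * (k + 1) = 2 * k + 2 by ring, show 2 * k + 2 + 1 = 2 * k + 3 by ring]
      exact this
  have hodd : ∀ k, α < A + B * w (2 * k + 1) := by
    intro k
    have h1 := eqp_good h
    have h2 := (hq k).2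
    have : B * eqp α A B < B * w (2 * k + 1) := mul_lt_mul_of_pos_left h2 (by linarith)
    linarith
  have hper : ∀ k, α < A + B * w (2 * k) → α < A + B * w (2 * k + 2) := by
    intro k hk
    rw [hws.step]
    apply good_step h (hws.nonneg h _) hk (hws.nonneg h _)
    have h1 := lt_one_of_good h hx (2 * k + n0 + 1) (by
      have : w (2 * k) = x (2 * k + n0 + 1 + 1) := by
        simp only [hw]
        congr 1
      rw [← this]
      exact hk)
    have h2 : w (2 * k + 1) = x (2 * k + n0 + 1 + 2) := by
      simp only [hw]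
      congr 1
      ring
    rw [h2]
    exact h1.le
  have hex : ∃ k, α < A + B * w (2 * k) := by
    by_contra hc
    push Not at hc
    set δ := w 0 * (3 / 4 * (1 - A)) / (A + α / w 0 + 1) with hδ
    have hδpos : 0 < δ := by
      have h1 := h.hα
      have h2 := h.hA
      have h3 := h.hA1
      have : 0 < 1 - A := by linarith
      positivity
    have hgrow : ∀ k : ℕ, w 0 + k * δ ≤ w (2 * k) := by
      intro k
      induction k with
      | zero => simp
      | succ k ih =>
        have h1 : w 0 ≤ w (2 * k) := by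
          have : 0 ≤ (k : ℝ) * δ := by positivity
          linarith
        have h2 := bad_growth h (t := x (2 * k + n0 + 1)) (hx.nonneg h _) hw0pos h1 (hc k)
        have h3 : w (2 * k + 1) = (α + x (2 * k + n0 + 1)) /
            (A + B * w (2 * k) + x (2 * k + n0 + 1)) := by
          have h4 := hx.step (2 * k + n0 + 1)
          have h5 : w (2 * k + 1) = x (2 * k + n0 + 1 + 2) := by
            simp only [hw]
            congr 1
            ring
          have h6 : w (2 * k) = x (2 * k + n0 + 1 + 1) := by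
            simp only [hw]
            congr 1
          rw [h5, h6, h4]
        rw [← h3, ← hws.step, ← hδ] at h2
        push_cast
        rw [show 2 * (k + 1) = 2 * k + 2 by ring]
        linarith
    obtain ⟨k, hk⟩ := exists_nat_gt (1 / δ)
    have h1 := hgrow k
    have h2 := (hq k).1
    have h3 := eqp_lt_one h
    rw [div_lt_iff₀ hδpos] at hk
    linarith
  obtain ⟨k0, hk0⟩ := hex
  have hev : ∀ j, α < A + B * w (2 * (k0 + j)) := by
    intro j
    induction j with
    | zero => exact hk0
    | succ j ih =>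
      have := hper _ ih
      rw [show 2 * (k0 + (j + 1)) = 2 * (k0 + j) + 2 by ring]
      exact this
  refine ⟨2 * k0 + (n0 + 2), fun n => ?_⟩
  have h1 : x (n + (2 * k0 + (n0 + 2))) = w (n + 2 * k0) := by
    simp only [hw]
    congr 1
    ring
  rw [h1]
  rcases Nat.even_or_odd n with ⟨m, hm⟩ | ⟨m, hm⟩
  · have := hev m
    rw [show n + 2 * k0 = 2 * (k0 + m) by omega]
    exact this
  · have := hodd (k0 + m)
    rw [show n + 2 * k0 = 2 * (k0 + m) + 1 by omega]
    exact this

theorem dif_nonneg_from (h : Par α A B) (hx : IsSol α A B x) (hy : IsSol α A B y)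
    (hg : ∀ n, α < A + B * x (n + 1)) (N : ℕ) (h0 : 0 ≤ dif x y N) (h1 : 0 ≤ dif x y (N + 1))
    (n : ℕ) (hn : N ≤ n) : 0 ≤ dif x y n := by
  have key : ∀ k, 0 ≤ dif x y (N + k) ∧ 0 ≤ dif x y (N + k + 1) := by
    intro k
    induction k with
    | zero => exact ⟨h0, h1⟩
    | succ k ih =>
      refine ⟨ih.2, ?_⟩
      rw [show N + (k + 1) + 1 = N + k + 2 by ring, dif_step h hx hy]
      have h2 := ca_pos h hx hy (N + k)
      have h3 := cb_pos h hx hy (N + k) (hg _)
      have := mul_nonneg h3.le ih.1
      have := mul_nonneg h2.le ih.2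
      linarith
  have := (key (n - N)).1
  rwa [Nat.add_sub_cancel' hn] at this

theorem dif_nonpos_from (h : Par α A B) (hx : IsSol α A B x) (hy : IsSol α A B y)
    (hg : ∀ n, α < A + B * x (n + 1)) (N : ℕ) (h0 : dif x y N ≤ 0) (h1 : dif x y (N + 1) ≤ 0)
    (n : ℕ) (hn : N ≤ n) : dif x y n ≤ 0 := by
  have key : ∀ k, dif x y (N + k) ≤ 0 ∧ dif x y (N + k + 1) ≤ 0 := by
    intro k
    induction k with
    | zero => exact ⟨h0, h1⟩
    | succ k ih =>
      refine ⟨ih.2, ?_⟩
      rw [show N + (k + 1) + 1 = N + k + 2 by ring, dif_step h hx hy]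
      have h2 := ca_pos h hx hy (N + k)
      have h3 := cb_pos h hx hy (N + k) (hg _)
      have := mul_nonpos_of_nonneg_of_nonpos h3.le ih.1
      have := mul_nonpos_of_nonneg_of_nonpos h2.le ih.2
      linarith
  have := (key (n - N)).1
  rwa [Nat.add_sub_cancel' hn] at this

theorem neg_one_pow_two_mul' (k : ℕ) : (-1 : ℝ) ^ (2 * k) = 1 := by
  rw [pow_mul]; norm_num

/-- The even and the odd subsequences are eventually monotone. -/
theorem mono_cases (h : Par α A B) (hx : IsSol α A B x) (hg : ∀ n, α < A + B * x n) :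
    ∃ N, ((∀ k, x (2 * (k + N)) ≤ x (2 * (k + N) + 2)) ∨
        (∀ k, x (2 * (k + N) + 2) ≤ x (2 * (k + N)))) ∧
      ((∀ k, x (2 * (k + N) + 1) ≤ x (2 * (k + N) + 3)) ∨
        (∀ k, x (2 * (k + N) + 3) ≤ x (2 * (k + N) + 1))) := by
  set y : ℕ → ℝ := fun n => x (n + 2) with hy
  have hys : IsSol α A B y := hx.shift h 2
  have hg' : ∀ n, α < A + B * x (n + 1) := fun n => hg _
  have hev : ∀ k, dif x y (2 * k) = x (2 * k + 2) - x (2 * k) := by
    intro k
    unfold dif
    rw [neg_one_pow_two_mul', one_mul]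
  have hod : ∀ k, dif x y (2 * k + 1) = -(x (2 * k + 3) - x (2 * k + 1)) := by
    intro k
    unfold dif
    rw [pow_succ, neg_one_pow_two_mul', one_mul, neg_one_mul]
  by_cases c1 : ∃ N, 0 ≤ dif x y N ∧ 0 ≤ dif x y (N + 1)
  · obtain ⟨N, a, b⟩ := c1
    have h1 := dif_nonneg_from h hx hys hg' N a b
    refine ⟨N, Or.inl fun k => ?_, Or.inr fun k => ?_⟩
    · have := h1 (2 * (k + N)) (by omega)
      rw [hev] at this
      linarith
    · have := h1 (2 * (k + N) + 1) (by omega)
      rw [hod] at this
      linarith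
  by_cases c2 : ∃ N, dif x y N ≤ 0 ∧ dif x y (N + 1) ≤ 0
  · obtain ⟨N, a, b⟩ := c2
    have h1 := dif_nonpos_from h hx hys hg' N a b
    refine ⟨N, Or.inr fun k => ?_, Or.inl fun k => ?_⟩
    · have := h1 (2 * (k + N)) (by omega)
      rw [hev] at this
      linarith
    · have := h1 (2 * (k + N) + 1) (by omega)
      rw [hod] at this
      linarith
  push Not at c1 c2
  have s1 : ∀ n, 0 < dif x y n → dif x y (n + 1) < 0 := fun n hn => c1 n hn.le
  have s2 : ∀ n, dif x y n < 0 → 0 < dif x y (n + 1) := fun n hn => c2 n hn.le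
  have hne : dif x y 0 ≠ 0 := by
    intro h0
    have a := c1 0 h0.ge
    have b := c2 0 h0.le
    linarith
  rcases lt_or_gt_of_ne hne with h0 | h0
  · have key : ∀ k, dif x y (2 * k) < 0 := by
      intro k
      induction k with
      | zero => exact h0
      | succ k ih =>
        rw [show 2 * (k + 1) = 2 * k + 1 + 1 by ring]
        exact s1 _ (s2 _ ih)
    refine ⟨0, Or.inr fun k => ?_, Or.inr fun k => ?_⟩
    · have := key (k + 0)
      rw [hev] at this
      linarith
    · have := s2 _ (key (k + 0))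
      rw [hod] at this
      linarith
  · have key : ∀ k, 0 < dif x y (2 * k) := by
      intro k
      induction k with
      | zero => exact h0
      | succ k ih =>
        rw [show 2 * (k + 1) = 2 * k + 1 + 1 by ring]
        exact s2 _ (s1 _ ih)
    refine ⟨0, Or.inl fun k => ?_, Or.inl fun k => ?_⟩
    · have := key (k + 0)
      rw [hev] at this
      linarith
    · have := s1 _ (key (k + 0))
      rw [hod] at this
      linarith

theorem lim_of_mono {u : ℕ → ℝ} {C : ℝ} (h0 : ∀ k, 0 ≤ u k) (h1 : ∀ k, u k ≤ C)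
    (hm : (∀ k, u k ≤ u (k + 1)) ∨ (∀ k, u (k + 1) ≤ u k)) :
    ∃ p, Tendsto u atTop (𝓝 p) := by
  rcases hm with hm | hm
  · exact ⟨_, tendsto_atTop_ciSup (monotone_nat_of_le_succ hm)
      ⟨C, by rintro _ ⟨k, rfl⟩; exact h1 k⟩⟩
  · exact ⟨_, tendsto_atTop_ciInf (antitone_nat_of_succ_le hm)
      ⟨0, by rintro _ ⟨k, rfl⟩; exact h0 k⟩⟩

/-- Both subsequences converge. -/
theorem exists_lims (h : Par α A B) (hx : IsSol α A B x) :
    ∃ p q, Tendsto (fun k => x (2 * k)) atTop (𝓝 p) ∧
      Tendsto (fun k => x (2 * k + 1)) atTop (𝓝 q) := by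
  obtain ⟨N, hN⟩ := ev_good h hx
  set z : ℕ → ℝ := fun n => x (n + (N + 1)) with hz
  have hzs : IsSol α A B z := hx.shift h _
  have hzg : ∀ n, α < A + B * z n := by
    intro n
    have := hN (n + 1)
    simp only [hz]
    rw [show n + (N + 1) = n + 1 + N by ring]
    exact this
  have hz1 : ∀ n, z (n + 2) ≤ 1 := fun n => (lt_one_of_good h hzs n (hzg _)).le
  set C := max (max (z 0) (z 1)) 1 with hC
  have hzC : ∀ n, z n ≤ C := by
    intro n
    rcases n with _ | _ | n
    · exact (le_max_left _ _).trans (le_max_left _ _)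
    · exact (le_max_right _ _).trans (le_max_left _ _)
    · exact (hz1 n).trans (le_max_right _ _)
  obtain ⟨N', m1, m2⟩ := mono_cases h hzs hzg
  obtain ⟨p, hp⟩ := lim_of_mono (u := fun k => z (2 * (k + N'))) (C := C)
    (fun k => hzs.nonneg h _) (fun k => hzC _) (by
      rcases m1 with m1 | m1
      · left; intro k; have := m1 k
        rw [show 2 * (k + 1 + N') = 2 * (k + N') + 2 by ring]; exact this
      · right; intro k; have := m1 k
        rw [show 2 * (k + 1 + N') = 2 * (k + N') + 2 by ring]; exact this)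
  obtain ⟨q, hq⟩ := lim_of_mono (u := fun k => z (2 * (k + N') + 1)) (C := C)
    (fun k => hzs.nonneg h _) (fun k => hzC _) (by
      rcases m2 with m2 | m2
      · left; intro k; have := m2 k
        rw [show 2 * (k + 1 + N') + 1 = 2 * (k + N') + 3 by ring]; exact this
      · right; intro k; have := m2 k
        rw [show 2 * (k + 1 + N') + 1 = 2 * (k + N') + 3 by ring]; exact this)
  have hp' : Tendsto (fun k => z (2 * k)) atTop (𝓝 p) :=
    (tendsto_add_atTop_iff_nat N').1 hp
  have hq' : Tendsto (fun k => z (2 * k + 1)) atTop (𝓝 q) :=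
    (tendsto_add_atTop_iff_nat (f := fun k => z (2 * k + 1)) N').1 hq
  rcases Nat.even_or_odd' (N + 1) with ⟨m, hm | hm⟩
  · refine ⟨p, q, ?_, ?_⟩
    · refine (tendsto_add_atTop_iff_nat (f := fun k => x (2 * k)) m).1 (hp'.congr fun k => ?_)
      simp only [hz]
      congr 1
      omega
    · refine (tendsto_add_atTop_iff_nat (f := fun k => x (2 * k + 1)) m).1
        (hq'.congr fun k => ?_)
      simp only [hz]
      congr 1
      omega
  · refine ⟨q, p, ?_, ?_⟩
    · refine (tendsto_add_atTop_iff_nat (f := fun k => x (2 * k)) (m + 1)).1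
        (hq'.congr fun k => ?_)
      simp only [hz]
      congr 1
      omega
    · refine (tendsto_add_atTop_iff_nat (f := fun k => x (2 * k + 1)) m).1
        (hp'.congr fun k => ?_)
      simp only [hz]
      congr 1
      omega

/-- All solutions converge to the equilibrium or to the two-cycle. -/
theorem trichotomy (h : Par α A B) (hx : IsSol α A B x) :
    Tendsto x atTop (𝓝 (eqp α A B)) ∨
    (Tendsto (fun k => x (2 * k)) atTop (𝓝 (lo α A B)) ∧
      Tendsto (fun k => x (2 * k + 1)) atTop (𝓝 (hi α A B))) ∨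
    (Tendsto (fun k => x (2 * k)) atTop (𝓝 (hi α A B)) ∧
      Tendsto (fun k => x (2 * k + 1)) atTop (𝓝 (lo α A B))) := by
  obtain ⟨p, q, hp, hq⟩ := exists_lims h hx
  have hp0 : 0 ≤ p := ge_of_tendsto' hp fun k => hx.nonneg h _
  have hq0 : 0 ≤ q := ge_of_tendsto' hq fun k => hx.nonneg h _
  have hmul : ∀ n, x (n + 2) * (A + B * x (n + 1) + x n) = α + x n := by
    intro n
    rw [hx.step n, div_mul_cancel₀ _ (hx.den h n).ne']
  have hp1 : Tendsto (fun k => x (2 * k + 2)) atTop (𝓝 p) := by
    refine ((tendsto_add_atTop_iff_nat (f := fun k => x (2 * k)) 1).2 hp).congr fun k => ?_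
    congr 1
  have hq1 : Tendsto (fun k => x (2 * k + 3)) atTop (𝓝 q) := by
    refine ((tendsto_add_atTop_iff_nat (f := fun k => x (2 * k + 1)) 1).2 hq).congr fun k => ?_
    congr 1
  have e1 : p * (A + B * q + p) = α + p := by
    have t1 : Tendsto (fun k => x (2 * k + 2) * (A + B * x (2 * k + 1) + x (2 * k))) atTop
        (𝓝 (p * (A + B * q + p))) :=
      hp1.mul ((tendsto_const_nhds.add (hq.const_mul B)).add hp)
    have t2 : Tendsto (fun k => α + x (2 * k)) atTop (𝓝 (α + p)) := tendsto_const_nhds.add hp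
    exact tendsto_nhds_unique (t1.congr fun k => hmul (2 * k)) t2
  have e2 : q * (A + B * p + q) = α + q := by
    have t1 : Tendsto (fun k => x (2 * k + 3) * (A + B * x (2 * k + 2) + x (2 * k + 1))) atTop
        (𝓝 (q * (A + B * p + q))) :=
      hq1.mul ((tendsto_const_nhds.add (hp1.const_mul B)).add hq)
    have t2 : Tendsto (fun k => α + x (2 * k + 1)) atTop (𝓝 (α + q)) :=
      tendsto_const_nhds.add hq
    exact tendsto_nhds_unique (t1.congr fun k => hmul (2 * k + 1)) t2
  have hB := h.hB
  by_cases hpq : p = q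
  · left
    rw [← hpq] at e1 hq
    have h3 := eqp_unique h hp0 e1
    rw [← h3]
    have : Tendsto x atTop (𝓝 p) := by
      rw [tendsto_atTop_nhds] at *
      intro U hU hUo
      obtain ⟨N1, hN1⟩ := hp U hU hUo
      obtain ⟨N2, hN2⟩ := hq U hU hUo
      refine ⟨2 * (N1 + N2) + 1, fun n hn => ?_⟩
      rcases Nat.even_or_odd' n with ⟨k, hk | hk⟩
      · rw [hk]
        exact hN1 k (by omega)
      · rw [hk]
        exact hN2 k (by omega)
    exact this
  · right
    have h3 : p + q = 1 - A := by
      have h4 : (p - q) * (A + p + q - 1) = 0 := by linarith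
      rcases mul_eq_zero.1 h4 with h5 | h5
      · exact absurd (sub_eq_zero.1 h5) hpq
      · linarith
    have h4 : p * q * (B - 1) = α := by
      have : A = 1 - p - q := by linarith
      rw [this] at e1
      linarith
    have h5 : p * q = α / (B - 1) := by
      rw [eq_div_iff (by linarith)]
      exact h4
    have h6 := lo_add_hi (α := α) (A := A) (B := B)
    have h7 := lo_mul_hi h
    have h8 : (p - lo α A B) * (p - hi α A B) = 0 := by
      have : (p - lo α A B) * (p - hi α A B) =
          p ^ 2 - (lo α A B + hi α A B) * p + lo α A B * hi α A B := by ring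
      rw [this, h6, h7, ← h5, ← h3]
      ring
    rcases mul_eq_zero.1 h8 with h9 | h9
    · left
      have h10 : p = lo α A B := by linarith
      have h11 : q = hi α A B := by linarith
      rw [← h10, ← h11]
      exact ⟨hp, hq⟩
    · right
      have h10 : p = hi α A B := by linarith
      have h11 : q = lo α A B := by linarith
      rw [← h10, ← h11]
      exact ⟨hp, hq⟩

end Pool.Agent.Q64.TC
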